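import Pool.Agent.helper16.EXG.Spec

/-!
# Project EXG (MP_561ff4_al), row GGN (helper44): generation
-/

set_option autoImplicit false

open Finset

namespace Pool.Agent.EXC

theorem GGN (hGXC : GXC_stmt) (hGCJ : GCJ_stmt) (hGNR : GNR_stmt) : GGN_stmt := by
  intro n C _ F _ j0 θ δ hE H hH
  have hnb := (f_NBR n C j0 θ δ hE).1
  have hX := k_XGS n C F hnb
  have hneg : ∀ (α : Fin n → ℤ) (s : F), ip C α α = 2 → XG C α s ∈ H → XG C α (-s) ∈ H := by
    intro α s hα h
    rw [← (hX α hα s).2.2]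
    exact H.inv_mem h
  have hsign : ∀ (α : Fin n → ℤ) (s : F) (e : ℤ), ip C α α = 2 → (e = 1 ∨ e = -1) → XG C α ((e : F) * s) ∈ H →
      XG C α s ∈ H := by
    intro α s e hα he h
    rcases he with he | he
    · rw [he, Int.cast_one, one_mul] at h
      exact h
    · rw [he, Int.cast_neg, Int.cast_one, neg_one_mul] at h
      have h2 := hneg α _ hα h
      rwa [neg_neg] at h2
  -- one reflection
  have hrf : ∀ (i : Fin n) (α : Fin n → ℤ) (s : F), ip C α α = 2 → XG C α s ∈ H → XG C (rf C i α) s ∈ H := by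
    intro i α s hα h
    obtain ⟨e, he, hn⟩ := hGNR n C F hnb i α hα
    have hα' : ip C (rf C i α) (rf C i α) = 2 := by rw [(f_RFL n C i α α).1]; exact hα
    have hsr := ip_sr_self C i
    have hsr' : ip C (-sr i) (-sr i) = 2 := neg_root C hsr
    have hg : (XG C (sr i) (1 : F) * XG C (-sr i) 1 * XG C (sr i) 1 : Lm C F ≃ₗ[F] Lm C F) ∈ GE C F :=
      mul_mem (mul_mem (hX _ hsr 1).2.1 (hX _ hsr' 1).2.1) (hX _ hsr 1).2.1
    have hgH : (XG C (sr i) (1 : F) * XG C (-sr i) 1 * XG C (sr i) 1 : Lm C F ≃ₗ[F] Lm C F) ∈ H :=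
      mul_mem (mul_mem (hH i).1 (hH i).2) (hH i).1
    have h3 := hGCJ n C F hnb _ hg α (rf C i α) hα hα' (e : F) hn s
    have h4 : XG C (rf C i α) ((e : F) * s) ∈ H := by
      rw [← h3]
      exact mul_mem (mul_mem hgH h) (inv_mem hgH)
    exact hsign _ s e hα' he h4
  -- all roots
  have hall : ∀ (α β : Fin n → ℤ) (s : F), ip C α α = 2 → ip C β β = 2 → XG C α s ∈ H → XG C β s ∈ H := by
    intro α β s hα hβ h
    have hd := f_DOM n C univ hE.con α β hα hβ (fun i hi => absurd (mem_univ i) hi)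
      (fun i hi => absurd (mem_univ i) hi)
    have key : ip C β β = 2 ∧ XG C β s ∈ H := by
      clear hβ
      induction hd with
      | refl => exact ⟨hα, h⟩
      | @tail b c _ hbc ih =>
        obtain ⟨i, -, rfl⟩ := hbc
        exact ⟨by rw [(f_RFL n C i b b).1]; exact ih.1, hrf i b s ih.1 ih.2⟩
    exact key.2
  have hone : ∀ α, ip C α α = 2 → XG C α (1 : F) ∈ H := by
    intro α hα
    exact hall (sr (δ 0)) α 1 (ip_sr_self C (δ 0)) hα (hH (δ 0)).1
  refine ⟨hone, ?_⟩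
  intro v t hv hvt hpow
  have ht : ∀ α, ip C α α = 2 → XG C α t ∈ H := fun α hα => hall v α t hv hα hvt
  -- products
  have hmul : ∀ a b : F, (∀ α, ip C α α = 2 → XG C α a ∈ H) → (∀ α, ip C α α = 2 → XG C α b ∈ H) →
      ∀ γ, ip C γ γ = 2 → XG C γ (a * b) ∈ H := by
    intro a b ha hb γ hγ
    obtain ⟨β', hβ', hγβ⟩ := hnb γ hγ
    have h1 : ip C (γ + β') (γ + β') = 2 := (add_root_iff hγ hβ').2 hγβ
    have h2 : ip C (-β') (-β') = 2 := neg_root C hβ'
    have h3 : ip C (γ + β') (-β') = -1 := by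
      rw [ip_neg_right, ip_add_left, hγβ, hβ']
      norm_num
    have h4 := (hGXC n C F hnb (γ + β') (-β') h1 h2 a b).2.2.2 h3
    have e5 : γ + β' + -β' = γ := by abel
    rw [e5] at h4
    have h6 : XG C γ (a * b * (sg C (γ + β') (-β') : F)) ∈ H := by
      have h7 : XG C γ (a * b * (sg C (γ + β') (-β') : F)) =
          (XG C (-β') b)⁻¹ * (XG C (γ + β') a * XG C (-β') b * (XG C (γ + β') a)⁻¹) := by
        rw [h4, inv_mul_cancel_left]
      rw [h7]
      exact mul_mem (inv_mem (hb _ h2)) (mul_mem (mul_mem (ha _ h1) (hb _ h2)) (inv_mem (ha _ h1)))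
    rw [mul_comm (a * b)] at h6
    exact hsign γ (a * b) (sg C (γ + β') (-β')) hγ (sg_cases C _ _) h6
  have hpw : ∀ (k : ℕ) (α : Fin n → ℤ), ip C α α = 2 → XG C α (t ^ k) ∈ H := by
    intro k
    induction k with
    | zero => intro α hα; rw [pow_zero]; exact hone α hα
    | succ k ih => intro α hα; rw [pow_succ]; exact hmul _ _ ih ht α hα
  have hevery : ∀ (u : F) (α : Fin n → ℤ), ip C α α = 2 → XG C α u ∈ H := by
    intro u α hα
    by_cases hu : u = 0
    · rw [hu, (hGXC n C F hnb α α hα hα 0 0).2.1]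
      exact one_mem H
    · obtain ⟨k, hk⟩ := hpow u hu
      rw [hk]
      exact hpw k α hα
  unfold GE
  rw [Subgroup.closure_le]
  rintro g ⟨α, hα, s, hg⟩
  have h8 : g = XG C α s := by
    refine LinearEquiv.ext fun x => ?_
    rw [hg x, (hX α hα s).1 x]
  rw [h8]
  exact hevery s α hα

end Pool.Agent.EXC
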